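import Pool.Agent.VDC.Final

namespace Pool.Agent.Results.MP_ed06fd_lc.VisibilityCDSHard

/-- Deciding whether the visibility graph of a simple polygon, given by the rational coordinates
of its vertices, has a dominating clique is NP-hard (under polynomial-time many-one reductions). -/
theorem result : Pool.Agent.H75.NPHard Pool.Agent.VDC.SimplePolygon.encode
    (fun P => Pool.Agent.VDC.HasDominatingClique P.visibilityGraph) :=
  Pool.Agent.VDC.npHard

end Pool.Agent.Results.MP_ed06fd_lc.VisibilityCDSHard
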